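import Pool.Agent.K3h16.MI.Stm

/-!
# Project MI (helper16): brick POU (helper58)
-/

set_option autoImplicit false

open MeasureTheory Set Filter Topology
open scoped ContDiff

namespace Pool.Agent.K3h58.MI

open Pool.Agent.K3h16.MI

/-- compact support in a parametrization -/
theorem compact_param {m n : ℕ} {M : Set (E n)} {γ : E m → E n} (hγ : IsParam M γ)
    (hM : IsCompact M) {B : Set (E n)} (hB : IsClosed B) (hsub : M ∩ B ⊆ range γ)
    (f : E n → ℝ) (hf : ∀ x, x ∉ B → f x = 0) : HasCompactSupport (fun u => f (γ u)) := by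
  have hc : IsCompact (γ ⁻¹' (M ∩ B)) :=
    (hγ.embedding.isInducing.isCompact_preimage_iff hsub).2 (hM.inter_right hB)
  refine HasCompactSupport.intro hc fun u hu => hf _ fun hB' => hu ⟨?_, hB'⟩
  obtain ⟨V, -, hV⟩ := hγ.open_range
  have : γ u ∈ range γ := mem_range_self u
  rw [hV] at this
  exact this.1

theorem t_POU : S_POU := by
  classical
  intro m n M e v hM
  have h1 : ∀ x : E n, ∃ (γ : E m → E n) (r : ℝ), 0 < r ∧ (x ∈ M → IsParam M γ ∧
      (∀ u, SameOr (e (γ u)) (pd γ u)) ∧ M ∩ Metric.closedBall x (3 * r) ⊆ range γ) := by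
    intro x
    by_cases hx : x ∈ M
    · obtain ⟨γ, hγ, hxγ, hor⟩ := hM.charts x hx
      obtain ⟨V, hVo, hV⟩ := hγ.open_range
      have hxV : x ∈ V := by
        rw [hV] at hxγ
        exact hxγ.2
      obtain ⟨ε, hε, hball⟩ := Metric.isOpen_iff.1 hVo x hxV
      refine ⟨γ, ε / 4, by positivity, fun _ => ⟨hγ, hor, ?_⟩⟩
      rw [hV]
      refine inter_subset_inter_right M ((Metric.closedBall_subset_ball ?_).trans hball)
      linarith
    · exact ⟨fun _ => 0, 1, one_pos, fun h => absurd h hx⟩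
  choose g r hr hg using h1
  obtain ⟨t, htM, hcov⟩ := hM.compact.elim_nhds_subcover (fun x => Metric.ball x (r x))
    (fun x _ => Metric.ball_mem_nhds x (hr x))
  let c : Fin t.card → E n := fun k => (t.equivFin.symm k : E n)
  have hcM : ∀ k, c k ∈ M := fun k => htM _ (t.equivFin.symm k).2
  let b : ∀ k, ContDiffBump (c k) := fun k =>
    ⟨r (c k), 2 * r (c k), hr _, by linarith [hr (c k)]⟩
  let h : ∀ k, ContDiffBump (c k) := fun k =>
    ⟨5 / 2 * r (c k), 3 * r (c k), by linarith [hr (c k)], by linarith [hr (c k)]⟩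
  let χ : Fin t.card → E n → ℝ := fun k x =>
    b k x * ∏ j ∈ Finset.univ with j < k, (1 - b j x)
  have hχ0 : ∀ k x, x ∉ Metric.ball (c k) (2 * r (c k)) → χ k x = 0 := by
    intro k x hx
    have : b k x = 0 := (b k).zero_of_le_dist (not_lt.1 hx)
    change b k x * _ = 0
    rw [this, zero_mul]
  have hη0 : ∀ k x, x ∉ Metric.ball (c k) (3 * r (c k)) → h k x = 0 := by
    intro k x hx
    exact (h k).zero_of_le_dist (not_lt.1 hx)
  obtain ⟨δ, hδ, hδr⟩ : ∃ δ : ℝ, 0 < δ ∧ ∀ k, δ ≤ r (c k) / 2 := by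
    have h1 : ∀ᶠ δ : ℝ in 𝓝[>] 0, ∀ k, δ ≤ r (c k) / 2 := by
      refine eventually_all.2 fun k => ?_
      have h2 : (0 : ℝ) < r (c k) / 2 := by linarith [hr (c k)]
      exact (ge_mem_nhds h2).filter_mono nhdsWithin_le_nhds
    obtain ⟨δ, h2, h3⟩ := (h1.and self_mem_nhdsWithin).exists
    exact ⟨δ, h3, h2⟩
  have hsub3 : ∀ k, Metric.ball (c k) (2 * r (c k)) ⊆ Metric.closedBall (c k) (3 * r (c k)) :=
    fun k => Metric.ball_subset_closedBall.trans
      (Metric.closedBall_subset_closedBall (by linarith [hr (c k)]))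
  refine ⟨t.card, fun k => g (c k), χ, fun k => h k, ⋃ k, Metric.ball (c k) (r (c k)), δ,
    isOpen_iUnion fun k => Metric.isOpen_ball, ?_, hδ, ?_, ?_⟩
  · refine hcov.trans (iUnion₂_subset fun x hx => ?_)
    have h2 : c (t.equivFin ⟨x, hx⟩) = x := by
      change ((t.equivFin.symm (t.equivFin ⟨x, hx⟩) : t) : E n) = x
      rw [Equiv.symm_apply_apply]
    have h3 := subset_iUnion (fun k => Metric.ball (c k) (r (c k))) (t.equivFin ⟨x, hx⟩)
    simp only [h2] at h3
    exact h3
  · intro x hx
    obtain ⟨k, hk⟩ := mem_iUnion.1 hx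
    have h2 := Finset.prod_one_sub_ordered Finset.univ (fun k => b k x)
    have h3 : ∏ k, (1 - b k x) = 0 := by
      refine Finset.prod_eq_zero (Finset.mem_univ k) ?_
      have : b k x = 1 := (b k).one_of_mem_closedBall (Metric.ball_subset_closedBall hk)
      rw [this, sub_self]
    rw [h3] at h2
    change ∑ k, b k x * ∏ j ∈ Finset.univ with j < k, (1 - b j x) = 1
    linarith
  · intro k
    obtain ⟨hγ, hor, hsub⟩ := hg (c k) (hcM k)
    refine ⟨hγ, hor, ?_, (h k).contDiff, ?_, ?_, ?_, ?_, ?_⟩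
    · exact (b k).contDiff.mul (contDiff_prod fun j _ => contDiff_const.sub (b j).contDiff)
    · refine compact_param hγ hM.compact (B := Metric.closedBall (c k) (3 * r (c k)))
        Metric.isClosed_closedBall hsub (χ k) fun x hx => hχ0 k x fun hx' => hx (hsub3 k hx')
    · exact compact_param hγ hM.compact (B := Metric.closedBall (c k) (3 * r (c k)))
        Metric.isClosed_closedBall hsub (h k) fun x hx => hη0 k x fun hx' =>
          hx (Metric.ball_subset_closedBall hx')
    · intro x hx hxr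
      have h2 : x ∉ Metric.closedBall (c k) (3 * r (c k)) := fun h' => hxr (hsub ⟨hx, h'⟩)
      exact ⟨hχ0 k x fun hx' => h2 (hsub3 k hx'),
        hη0 k x fun hx' => h2 (Metric.ball_subset_closedBall hx')⟩
    · intro x _ y _ hxy hχx
      have h2 : x ∈ Metric.ball (c k) (2 * r (c k)) := by
        by_contra h'
        exact hχx (hχ0 k x h')
      refine (h k).one_of_mem_closedBall ?_
      rw [Metric.mem_closedBall]
      change dist y (c k) ≤ 5 / 2 * r (c k)
      rw [Metric.mem_ball] at h2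
      have h3 : dist y x < δ := by rw [dist_comm, dist_eq_norm]; exact hxy
      have h4 := dist_triangle y x (c k)
      have h5 := hδr k
      linarith
    · intro x hx hxr hxt
      have h2 : tsupport (χ k) ⊆ Metric.closedBall (c k) (3 * r (c k)) := by
        refine closure_minimal (fun y hy => ?_) Metric.isClosed_closedBall
        by_contra h'
        exact hy (hχ0 k y fun hy' => h' (hsub3 k hy'))
      exact hxr (hsub ⟨hx, h2 hxt⟩)

end Pool.Agent.K3h58.MI
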